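import Pool.Agent.Helper92_LUR.Defs

set_option autoImplicit false
open Filter Topology Set

namespace LUR

theorem Good.mono' {K : Type} [TopologicalSpace K] {s : ℕ → Set K → K}
    {f : C(K, ℝ)} {R : Set K → Set K → Prop} {ε : ℝ} {A B : Set K} (h : Good s f R ε B)
    (hAB : A ⊆ B) : Good s f R ε A := by
  obtain ⟨D, h1, h2, h3⟩ := h
  exact ⟨D, h1, h2, hAB.trans h3⟩

theorem Good.union' {K : Type} [TopologicalSpace K] {s : ℕ → Set K → K}
    {f : C(K, ℝ)} {R : Set K → Set K → Prop} {ε : ℝ} {A B : Set K} (hA : Good s f R ε A)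
    (hB : Good s f R ε B) : Good s f R ε (A ∪ B) := by
  obtain ⟨D, h1, h2, h3⟩ := hA
  obtain ⟨E, g1, g2, g3⟩ := hB
  refine ⟨D ∪ E, h1.union g1, ?_, ?_⟩
  · rintro q (hq | hq)
    · exact h2 q hq
    · exact g2 q hq
  · rw [biUnion_union]
    exact union_subset_union h3 g3

theorem Good.empty' {K : Type} [TopologicalSpace K] {s : ℕ → Set K → K}
    {f : C(K, ℝ)} {R : Set K → Set K → Prop} {ε : ℝ} : Good s f R ε ∅ :=
  ⟨∅, finite_empty, by simp, by simp⟩

theorem Good.finset' {K ι : Type} [TopologicalSpace K] {s : ℕ → Set K → K}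
    {f : C(K, ℝ)} {R : Set K → Set K → Prop} {ε : ℝ} (T : Finset ι) (A : ι → Set K)
    (h : ∀ N ∈ T, Good s f R ε (A N)) : Good s f R ε (⋃ N ∈ T, A N) := by
  classical
  induction T using Finset.induction_on with
  | empty => simpa using Good.empty'
  | insert a T ha ih =>
    rw [Finset.set_biUnion_insert]
    exact (h a (Finset.mem_insert_self _ _)).union'
      (ih fun N hN => h N (Finset.mem_insert_of_mem hN))

theorem gstep (hT : TERM) (hG : GAP) : GSTEP := by
  intro K _ _ ι Λ s f R hR ε hε C n hC hp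
  by_contra hbad
  set W : Set K := {z | ε ≤ |f z - f (s n C)|} with hW
  have hWc : IsClosed W := by
    have : Continuous fun z => |f z - f (s n C)| := by fun_prop
    exact isClosed_le continuous_const this
  let P : Set K → Prop := fun D => R C D ∧ Good s f R ε (C \ D)
  -- one step of the process
  have step : ∀ D, P D → ∃ (D' : Set K) (i : ℕ), P D' ∧ D' ⊆ D ∧
      ((D ∩ W) ∩ (Λ n).F i).Nonempty ∧
      (∀ j, ((D ∩ W) ∩ (Λ n).F j).Nonempty →
        (D ∩ W) ∩ ((Λ n).F j \ ⋃ N, (Λ n).V j N) = ∅ → i ≤ j) ∧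
      (D' ∩ W) ∩ (Λ n).F i = ∅ := by
    classical
    rintro D ⟨hD, hgood⟩
    have hDc := hR.closedD C D hD
    have hDC := hR.sub C D hD
    have hne : (D ∩ W).Nonempty := by
      by_contra hempty
      rw [not_nonempty_iff_eq_empty] at hempty
      apply hbad
      have h1 : Good s f R ε D := by
        refine ⟨{(C, D, n)}, finite_singleton _, ?_, by simp⟩
        intro q hq
        rw [mem_singleton_iff] at hq
        subst hq
        refine ⟨hD, fun z hz => ?_⟩
        by_contra h2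
        have : z ∈ D ∩ W := ⟨hz, not_lt.1 h2⟩
        rw [hempty] at this
        exact this
      refine (hgood.union' h1).mono' ?_
      intro z hz
      by_cases h2 : z ∈ D
      · exact Or.inr h2
      · exact Or.inl ⟨hz, h2⟩
    have hex := (Λ n).elig (D ∩ W) (hDc.inter hWc) hne
    obtain ⟨hi1, hi2⟩ := Nat.find_spec hex
    set i := Nat.find hex with hi
    obtain ⟨T, δ, hδ, hT1, hT2, hT3, hT4⟩ := hG K ι (Λ n) D (s n C) f ε i hDc hε hi1 hi2
    obtain ⟨hs1, hs2⟩ := hR.step n i C D T δ hD hδ hT3 hT4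
    refine ⟨D \ ⋃ N ∈ T, (Λ n).O N, i, ⟨hs1, ?_⟩, diff_subset, hi1, ?_, ?_⟩
    · have h1 : Good s f R ε (⋃ N ∈ T, (C ∩ closure ((Λ n).O N))) := by
        refine Good.finset' T _ fun N hN => ?_
        refine hp i N ?_ (hs2 N hN)
        obtain ⟨z, hz1, hz2, hz3⟩ := hT1 N hN
        exact Set.Nonempty.ne_empty ⟨z, hz1, hDC hz2, hz3⟩
      refine (hgood.union' h1).mono' ?_
      rintro z ⟨hz1, hz2⟩
      by_cases h2 : z ∈ D
      · right
        have h3 : z ∈ ⋃ N ∈ T, (Λ n).O N := by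
          by_contra h4
          exact hz2 ⟨h2, h4⟩
        simp only [mem_iUnion, exists_prop] at h3 ⊢
        obtain ⟨N, hN, h4⟩ := h3
        exact ⟨N, hN, hz1, subset_closure h4⟩
      · exact Or.inl ⟨hz1, h2⟩
    · intro j hj1 hj2
      exact Nat.find_min' hex ⟨hj1, hj2⟩
    · rw [eq_empty_iff_forall_notMem]
      rintro z ⟨⟨⟨hz1, hz2⟩, hz3⟩, hz4⟩
      have h1 := hT2 ⟨⟨hz1, hz3⟩, hz4⟩
      simp only [mem_iUnion, exists_prop] at h1
      obtain ⟨N, hN, h2⟩ := h1
      apply hz2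
      simp only [mem_iUnion, exists_prop]
      exact ⟨N, hN, (Λ n).subO i N h2⟩
  choose! nx ix h1 h2 h3 h4 h5 using step
  let Ds : ℕ → Set K := fun k => Nat.rec C (fun _ D => nx D) k
  have hP : ∀ k, P (Ds k) := by
    intro k
    induction k with
    | zero => exact ⟨hC, by simpa [Ds] using Good.empty'⟩
    | succ k ih => exact h1 _ ih
  refine hT K (Λ n).F (fun i => (Λ n).F i \ ⋃ N, (Λ n).V i N) (Λ n).closedF ?_ ?_
    (fun k => Ds k ∩ W) (fun k => ix (Ds k)) ?_ ?_ ?_ ?_ ?_ ?_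
  · intro i
    simpa using (Λ n).closedDiff i univ
  · exact (Λ n).elig
  · intro k
    exact (hR.closedD C _ (hP k).1).inter hWc
  · intro k
    exact (h3 _ (hP k)).mono inter_subset_left
  · intro k
    exact inter_subset_inter_left _ (h2 _ (hP k))
  · intro k
    exact h3 _ (hP k)
  · intro k j
    exact h4 _ (hP k) j
  · intro k
    exact h5 _ (hP k)

end LUR
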