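import Pool.Agent.Helper92_LUR.Defs

set_option autoImplicit false
open Filter Topology Set

namespace LUR

theorem mins (hM : MAXR) : MINS := by
  intro K _ _ r hr Q hQ n C Z hZ h
  -- maximum of `r n` on `C' ∩ Z`
  have key : ∀ C', C' ⊆ C → Q C' → ∃ x ∈ C' ∩ Z, ∀ y ∈ C' ∩ Z, r n y ≤ r n x := by
    intro C' h1 h2
    exact hM K (r n) (hr n) (C' ∩ Z) ((hQ C' h2).inter hZ) (h.hit C' h1 h2)
  -- the set of maxima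
  let S : Set Ordinal.{0} := {a | ∃ C', C' ⊆ C ∧ Q C' ∧ ∃ x ∈ C' ∩ Z, r n x = a ∧ ∀ y ∈ C' ∩ Z, r n y ≤ a}
  have hS : S.Nonempty := by
    obtain ⟨x, hx, hx2⟩ := key C Subset.rfl h.mem
    exact ⟨r n x, C, Subset.rfl, h.mem, x, hx, rfl, hx2⟩
  obtain ⟨a, ⟨C', hC, hQC, x, hx, hxa, hmax⟩, hmin⟩ : ∃ a ∈ S, ∀ b ∈ S, a ≤ b :=
    ⟨sInf S, csInf_mem hS, fun b hb => csInf_le' hb⟩
  have hlow : ∀ C'', C'' ⊆ C → Q C'' → ∃ x ∈ C'' ∩ Z, a ≤ r n x ∧ ∀ y ∈ C'' ∩ Z, r n y ≤ r n x := by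
    intro C'' h1 h2
    obtain ⟨x, hx, hx2⟩ := key C'' h1 h2
    exact ⟨x, hx, hmin _ ⟨C'', h1, h2, x, hx, rfl, hx2⟩, hx2⟩
  refine ⟨C', Z ∩ {x | a ≤ r n x}, hC, inter_subset_left, hZ.inter (hr n a), hQC, ?_, ?_, ?_, ?_⟩
  · intro C'' h1 h2
    obtain ⟨x, hx, hx2, -⟩ := hlow C'' (h1.trans hC) h2
    exact ⟨x, hx.1, hx.2, hx2⟩
  · intro C'' h1 h2
    have hT : Ltop r n C'' = C'' ∩ Z := h.top C'' (h1.trans hC) h2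
    obtain ⟨x0, hx0, hx0a, hx0m⟩ := hlow C'' (h1.trans hC) h2
    ext z
    simp only [Ltop, hT, mem_setOf_eq, mem_inter_iff]
    constructor
    · rintro ⟨⟨h3, h4⟩, h5⟩
      exact ⟨h3, h4, hx0a.trans (h5 x0 hx0)⟩
    · rintro ⟨h3, h4, h5⟩
      refine ⟨⟨h3, h4⟩, fun y hy => ?_⟩
      exact (hmax y ⟨h1 hy.1, hy.2⟩).trans h5
  · intro y hy z hz l hl
    rcases Nat.lt_succ_iff_lt_or_eq.1 hl with h1 | rfl
    · exact h.eqr y ⟨hC hy.1, hy.2.1⟩ z ⟨hC hz.1, hz.2.1⟩ l h1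
    · exact le_antisymm ((hmax y ⟨hy.1, hy.2.1⟩).trans hz.2.2)
        ((hmax z ⟨hz.1, hz.2.1⟩).trans hy.2.2)
  · intro y hy hyZ
    by_cases hy2 : y ∈ Z
    · refine ⟨n, Nat.lt_succ_self n, fun z hz => ?_⟩
      have h1 : ¬ a ≤ r n y := fun h1 => hyZ ⟨hy2, h1⟩
      exact (not_le.1 h1).trans_le hz.2
    · obtain ⟨l, hl, h1⟩ := h.low y (hC hy) hy2
      exact ⟨l, hl.trans (Nat.lt_succ_self n), fun z hz => h1 z hz.1⟩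

end LUR
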